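import Pool.Agent.H.MP_81a968_lc.A

set_option autoImplicit false

/-! Requests describing the halting set along an oracle, and their weight. -/

namespace Pool.Agent.H.MP_29fd35_lc

open Pool.Agent.Lib.helper21.PR Pool.Agent.H.MP_fa5791_lc Pool.Agent.H.MP_fa2eca_lc Filter Encodable Denumerable
open Nat.Partrec Nat.Partrec.Code Pool.Agent.Lib.helper21 Pool.Agent.Lib.helper21.ML Finset
open Pool.Agent.H.MP_81a968_lc (S lim lim_pre chain)
open Classical

attribute [local irreducible] Primrec Computable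

variable {α : Type} [Primcodable α]

noncomputable def K (i : ℕ) : Bool := decide ((ofNat Code i).eval i).Dom

theorem jumpK {p : α → Prop} (h : RE p) : CI K fun a => cd (p a) := by
  obtain ⟨c, hc⟩ := re_code (r_pw h).re
  have h1 : Primrec fun a : α => encode (c.comp (Code.const (encode a))) :=
    Primrec.encode.comp (Code.primrec₂_comp.comp (.const c) (Code.primrec_const.comp .encode))
  refine (ci_comp (ci_self K) (ci_prim h1)).of_eq fun a => ?_
  rw [Bool.eq_iff_iff, cd_true, hc, K, decide_eq_true_iff, ofNat_encode]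
  simp [eval, eval_const]

def N (e x t : ℕ) : Bool := (evaln t (ofNat Code e) x).isSome

@[fun_prop] theorem N_prim {e x t : α → ℕ} (he : Primrec e) (hx : Primrec x) (ht : Primrec t) :
    Primrec fun a => N (e a) (x a) (t a) := by unfold N; fun_prop

theorem N_mono {e x t t' : ℕ} (h : t ≤ t') (k : N e x t = true) : N e x t' = true := by
  obtain ⟨y, hy⟩ := Option.isSome_iff_exists.1 k
  exact Option.isSome_iff_exists.2 ⟨y, evaln_mono h hy⟩

theorem N_sound {e x t : ℕ} (k : N e x t = true) : ((ofNat Code e).eval x).Dom := by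
  obtain ⟨y, hy⟩ := Option.isSome_iff_exists.1 k
  exact Part.dom_iff_mem.2 ⟨y, evaln_sound hy⟩

theorem N_ev {e x : ℕ} (k : ((ofNat Code e).eval x).Dom) : ∀ᶠ t in atTop, N e x t = true := by
  obtain ⟨t, ht⟩ := evaln_complete.1 (Part.get_mem k)
  exact (eventually_ge_atTop t).mono fun _ h => N_mono h (Option.isSome_iff_exists.2 ⟨_, ht⟩)

def gs (t n : ℕ) : S := pre (fun i => N i i t) n

theorem gs_ev (n : ℕ) : ∀ᶠ t in atTop, gs t n = pre K n :=
  ((eventually_all_finite (Set.finite_Iio n)).2 fun i _ => show ∀ᶠ t in atTop, N i i t = K i from by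
    by_cases h : ((ofNat Code i).eval i).Dom
    · exact (N_ev h).mono fun t k => by rw [k, K, decide_eq_true h]
    · exact .of_forall fun t => by
        rw [K, decide_eq_false h, Bool.eq_false_iff]
        exact fun k => h (N_sound k)).mono fun _ h => pre_congr h

def ee (j : ℕ) : ℕ := j.unpair.1
def nn (j : ℕ) : ℕ := j.unpair.2.unpair.1
def kk (j : ℕ) : ℕ := j.unpair.2.unpair.2

theorem ek_le (j : ℕ) : ee j + kk j ≤ j := by
  have h1 := Nat.add_le_pair j.unpair.1 j.unpair.2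
  have := Nat.unpair_right_le j.unpair.2
  rw [Nat.pair_unpair] at h1
  unfold ee kk
  omega

theorem nn_le (j : ℕ) : nn j ≤ j := (Nat.unpair_left_le _).trans (Nat.unpair_right_le _)

def En (X : ℕ → Bool) (u j : ℕ) : Prop := ∃ m < u, N (ee j) (encode ((nn j, kk j), pre X m)) u = true

def It (X : ℕ → Bool) (t j : ℕ) : Prop := ∃ u < t + 1, j < u ∧ En X u j ∧
  ∑ i ∈ range u, (if ee i = ee j ∧ En X u i then 2 ^ (u - kk i) else 0) ≤ 2 * 2 ^ u

def Rq (X : ℕ → Bool) (t j : ℕ) : Prop := X t = true ∧ j < ((range t).filter (X · = true)).card ∧ It X t j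

def Nw (X : ℕ → Bool) (t j : ℕ) : Prop := Rq X t j ∧ ∀ t' < t, Rq X t' j → gs t' (nn j) ≠ gs t (nn j)

variable {X Y : ℕ → Bool} {t j s u : ℕ}

theorem En_congr (h : ∀ i < u, X i = Y i) : En X u j ↔ En Y u j :=
  exists_congr fun m => and_congr_right fun a => by rw [pre_congr fun i b => h i (b.trans a)]

theorem Rq_congr (h : ∀ i ≤ t, X i = Y i) : Rq X t j ↔ Rq Y t j := by
  unfold Rq It
  rw [h t le_rfl, filter_congr fun i hi => by rw [h i (mem_range.1 hi).le]]
  exact and_congr_right fun _ => and_congr_right fun _ => exists_congr fun u => and_congr_right fun a => by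
    simp only [En_congr (X := X) (Y := Y) (u := u) fun i b => h i (by omega)]

theorem Nw_congr (h : ∀ i ≤ t, X i = Y i) : Nw X t j ↔ Nw Y t j :=
  and_congr (Rq_congr h) (forall₂_congr fun t' a => by rw [Rq_congr fun i b => h i (b.trans a.le)])

noncomputable def w (j : ℕ) : ℝ := (1 / 2) ^ (ee j + kk j)

theorem w_pos (j : ℕ) : 0 ≤ w j := by unfold w; positivity

noncomputable def V (P : ℕ → ℕ → Prop) (X : ℕ → Bool) (s : ℕ) : ℝ :=
  ∑ t ∈ range s, ∑ j ∈ range t, if Nw X t j ∧ P t j then w j else 0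

variable {P : ℕ → ℕ → Prop}

theorem V_congr (h : ∀ i < s, X i = Y i) : V P X s = V P Y s :=
  sum_congr rfl fun t ht => sum_congr rfl fun j _ => by
    rw [Nw_congr fun i b => h i (b.trans_lt (mem_range.1 ht))]

theorem V_mono : Monotone (V P X) := fun _ _ h => sum_le_sum_of_subset_of_nonneg (range_mono h) fun _ _ _ =>
  sum_nonneg fun j _ => by split_ifs; exacts [w_pos j, le_rfl]

theorem V_split (P : ℕ → ℕ → Prop) : V (fun _ _ => True) X s = V P X s + V (fun t j => ¬ P t j) X s := by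
  simp only [V, ← sum_add_distrib]
  exact sum_congr rfl fun t _ => sum_congr rfl fun j _ => by by_cases P t j <;> simp [*]

theorem geo (a u : ℕ) : ∑ k ∈ Ico a u, (1 / 2 : ℝ) ^ k ≤ 2 * (1 / 2) ^ a := by
  rw [sum_Ico_eq_sum_range]
  simp only [pow_add, ← mul_sum]
  rw [mul_comm]
  exact mul_le_mul_of_nonneg_right (sum_geometric_two_le _) (by positivity)

theorem cast_pow {a L : ℕ} (h : a ≤ L) : ((2 ^ (L - a) : ℕ) : ℝ) = (1 / 2) ^ a * 2 ^ L := by
  obtain ⟨d, rfl⟩ := Nat.exists_eq_add_of_le h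
  rw [Nat.add_sub_cancel_left, pow_add, ← mul_assoc, ← mul_pow]
  simp

theorem cap_iff {Q : ℕ → Prop} [∀ i, Decidable (Q i)] : ∑ i ∈ range u, (if Q i then 2 ^ (u - kk i) else 0) ≤ 2 * 2 ^ u ↔
    ∑ i ∈ range u, (if Q i then (1 / 2 : ℝ) ^ kk i else 0) ≤ 2 := by
  rw [← Nat.cast_le (α := ℝ), ← mul_le_mul_iff_left₀ (c := 2) (show (0 : ℝ) < 2 ^ u by positivity), sum_mul, Nat.cast_sum,
    sum_congr rfl fun i hi => show _ = (if Q i then (1 / 2 : ℝ) ^ kk i else 0) * 2 ^ u from by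
      split_ifs
      · exact cast_pow (by have := ek_le i; have := mem_range.1 hi; omega)
      · simp]
  simp

theorem It_wt : ∑ j ∈ range s, (if It X s j then w j else 0) ≤ 4 := by
  have h1 : ∀ e, ∑ j ∈ range s, (if It X s j ∧ ee j = e then (1 / 2 : ℝ) ^ kk j else 0) ≤ 2 := fun e => by
    by_cases c : ∃ u, u < s + 1 ∧ ∑ i ∈ range u, (if ee i = e ∧ En X u i then 2 ^ (u - kk i) else 0) ≤ 2 * 2 ^ u
    · obtain ⟨u, ⟨u1, u2⟩, u3⟩ := Set.exists_max_image {u | _} id ((Set.finite_Iio (s + 1)).subset fun _ h => h.1) c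
      refine le_trans ?_ (cap_iff.1 u2)
      rw [← sum_filter, ← sum_filter]
      refine sum_le_sum_of_subset_of_nonneg (fun j hj => ?_) fun _ _ _ => by positivity
      obtain ⟨-, ⟨v, v1, v2, ⟨m, v3, v4⟩, v5⟩, rfl⟩ := mem_filter.1 hj
      have : v ≤ u := u3 v ⟨v1, v5⟩
      exact mem_filter.2 ⟨mem_range.2 (v2.trans_le this), rfl, m, v3.trans_le this, N_mono this v4⟩
    · exact (c ⟨0, by simp⟩).elim
  calc _ = ∑ j ∈ range s, ∑ e ∈ range s, (1 / 2 : ℝ) ^ e * if It X s j ∧ ee j = e then (1 / 2 : ℝ) ^ kk j else 0 :=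
        sum_congr rfl fun j hj => by
          rw [sum_eq_single (ee j) (fun e _ h => by simp [h.symm]) fun h => (h (mem_range.2 (by
            have := ek_le j; have := mem_range.1 hj; omega))).elim]
          by_cases It X s j <;> simp [*, w, pow_add]
    _ ≤ ∑ e ∈ range s, (1 / 2 : ℝ) ^ e * 2 := by
        rw [sum_comm]
        exact sum_le_sum fun e _ => by rw [← mul_sum]; exact mul_le_mul_of_nonneg_left (h1 e) (by positivity)
    _ ≤ 4 := by rw [← sum_mul]; linarith [sum_geometric_two_le s]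

def Tr (t j : ℕ) : Prop := gs t (nn j) = pre K (nn j)

theorem V_Tr : V Tr X s ≤ 4 := by
  refine le_trans ?_ (It_wt (X := X) (s := s))
  calc _ ≤ ∑ t ∈ range s, ∑ j ∈ range s, if Nw X t j ∧ Tr t j then w j else 0 :=
        sum_le_sum fun t ht => sum_le_sum_of_subset_of_nonneg (range_mono (mem_range.1 ht).le) fun j _ _ => by
          split_ifs; exacts [w_pos j, le_rfl]
    _ ≤ _ := by
        rw [sum_comm]
        refine sum_le_sum fun j _ => ?_
        by_cases c : ∃ t ∈ range s, Nw X t j ∧ Tr t j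
        · obtain ⟨t, t1, t2⟩ := c
          rw [sum_eq_single t (fun t' _ h => if_neg fun k => ?_) fun h => (h t1).elim, if_pos t2, if_pos]
          · obtain ⟨u, u1, u2⟩ := t2.1.1.2.2
            exact ⟨u, by have := mem_range.1 t1; omega, u2⟩
          · rcases h.lt_or_gt with h | h
            · exact t2.1.2 t' h k.1.1 (k.2.trans t2.2.symm)
            · exact k.1.2 t h t2.1.1 (t2.2.trans k.2.symm)
        · rw [sum_eq_zero fun t ht => if_neg fun k => c ⟨t, ht, k⟩]
          split_ifs; exacts [w_pos j, le_rfl]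

def fn (σ : S) (i : ℕ) : Bool := σ.getD i false

noncomputable def nV (X : ℕ → Bool) (s L : ℕ) : ℕ :=
  ∑ t ∈ range s, ∑ j ∈ range t, if Nw X t j then 2 ^ (L - (ee j + kk j)) else 0

theorem nV_cast {L : ℕ} (h : s ≤ L) : (nV X s L : ℝ) = V (fun _ _ => True) X s * 2 ^ L := by
  simp only [nV, V, Nat.cast_sum, sum_mul]
  refine sum_congr rfl fun t ht => sum_congr rfl fun j hj => ?_
  by_cases c : Nw X t j
  · simp only [c, if_true, and_self]
    exact cast_pow (by have := ek_le j; have := mem_range.1 hj; have := mem_range.1 ht; omega)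
  · simp [c]

def E (e : ℕ) (σ τ : S) : Prop := σ <+: τ ∧
  nV (fn τ) τ.length (τ.length + e) ≤ nV (fn σ) σ.length (τ.length + e) + 2 ^ (τ.length + e - e)

theorem E_iff {e : ℕ} {σ τ : S} : E e σ τ ↔ σ <+: τ ∧
    V (fun _ _ => True) (fn τ) τ.length ≤ V (fun _ _ => True) (fn σ) σ.length + (1 / 2) ^ e :=
  and_congr_right fun h => by
    have := h.length_le
    rw [← Nat.cast_le (α := ℝ), Nat.cast_add, nV_cast (by omega), nV_cast (by omega), cast_pow (by omega), ← add_mul,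
      mul_le_mul_iff_left₀ (by positivity)]

theorem Rq_ci {O : ℕ → Bool} {X : α → ℕ → Bool} {t j : α → ℕ} (hX : CI O fun z : α × ℕ => X z.1 z.2) (ht : CI O t)
    (hj : CI O j) : CI O fun a => cd (Rq (X a) (t a) (j a)) := by
  unfold Rq It En ee nn kk
  fun_prop

theorem E_re : RE fun z : ℕ × S × S => E z.1 z.2.1 z.2.2 := by
  have h0 : CI O fun z : S × ℕ × ℕ => cd (Rq (fn z.1) z.2.1 z.2.2) :=
    Rq_ci (X := fun z : S × ℕ × ℕ => fn z.1) (by unfold fn; fun_prop) (by fun_prop) (by fun_prop)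
  obtain ⟨R, r1, r2⟩ : ∃ R : S × ℕ × ℕ → Bool, CI O R ∧ ∀ σ t j, Rq (fn σ) t j ↔ R (σ, t, j) = true :=
    ⟨_, h0, fun _ _ _ => cd_true.symm⟩
  have h1 : CI O fun z : S × ℕ × ℕ => nV (fn z.1) z.2.1 z.2.2 := by
    simp only [nV, Nw, r2]
    unfold gs ee nn kk
    fun_prop
  obtain ⟨F, f1, f2⟩ : ∃ F : S × ℕ × ℕ → ℕ, CI O F ∧ ∀ σ s L, nV (fn σ) s L = F (σ, s, L) := ⟨_, h1, fun _ _ _ => rfl⟩
  simp only [E, f2]
  exact ri_re (RI.un (by fun_prop))

theorem fn_pre (X : ℕ → Bool) {n i : ℕ} (h : i < n) : fn (pre X n) i = X i := by simp [fn, pre, h]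

theorem V_pre (X : ℕ → Bool) (n : ℕ) : V P (fn (pre X n)) (pre X n).length = V P X n := by
  rw [pre_len]
  exact V_congr fun i => fn_pre X

theorem fn_le {σ τ : S} (h : σ <+: τ) {i : ℕ} (hi : i < σ.length) : fn σ i = fn τ i := by
  rw [fn, fn, List.getD_eq_getElem _ _ hi, List.getD_eq_getElem _ _ (hi.trans_le h.length_le), h.getElem hi]

def Wd (e x : ℕ) (b : Bool) (τ : S) : Prop :=
  x < τ.length ∧ ∃ m < τ.length, N e (encode ((x, b), τ.take m)) τ.length = true

theorem Wd_mono {e x : ℕ} {b : Bool} {σ τ : S} (h : σ <+: τ) (k : Wd e x b σ) : Wd e x b τ := by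
  obtain ⟨k1, m, k2, k3⟩ := k
  have := h.length_le
  refine ⟨by omega, m, by omega, N_mono this ?_⟩
  obtain ⟨r, rfl⟩ := h
  rwa [List.take_append_of_le_length k2.le]

variable (A : ℕ → Bool)

def Sat (e : ℕ) (σ : S) : Prop := ∃ x < σ.length, Wd e x (!A x) σ

def Split (e : ℕ) (σ : S) : Prop := ∃ x τ τ', E e σ τ ∧ E e σ τ' ∧ Wd e x true τ ∧ Wd e x false τ'

def Rel (e : ℕ) (σ ρ : S) : Prop := ∃ τ, (¬ Sat A e σ ∧ E e σ τ ∧ Sat A e τ ∨ (Sat A e σ ∨ ¬ Split e σ) ∧ τ = σ) ∧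
  ∃ r, ρ = τ ++ List.replicate r false ++ [true] ∧ gs (τ.length + r) τ.length = pre K τ.length

theorem step (hA : CI K A) : ∃ st : ℕ × S → S, CI K st ∧ ∀ z, Rel A z.1 z.2 (st z) := by
  have h1 := E_re
  have h2 : RI K fun z : ℕ × S × S => E z.1 z.2.1 z.2.2 := (i_re (r_pw h1)).un
  have h3 : Primrec fun z : (ℕ × ℕ) × Bool × S => cd (Wd z.1.1 z.1.2 z.2.1 z.2.2) := by unfold Wd; fun_prop
  obtain ⟨W, w1, w2⟩ : ∃ W : (ℕ × ℕ) × Bool × S → Bool, Primrec W ∧ ∀ e x b τ, Wd e x b τ ↔ W ((e, x), b, τ) = true :=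
    ⟨_, h3, fun _ _ _ _ => cd_true.symm⟩
  obtain ⟨p, p1, p2⟩ : ∃ p : ℕ × S → Bool, CI K p ∧ ∀ e σ, ¬ Split e σ ↔ p (e, σ) = false :=
    ⟨_, jumpK (p := fun z : ℕ × S => Split z.1 z.2) (RE.un (RE.re (by simp only [Split, w2]; fun_prop))),
      fun _ _ => by rw [← Bool.not_eq_true, cd_true]⟩
  obtain ⟨q, q1, q2⟩ : ∃ q : ℕ × S → Bool, CI K q ∧ ∀ e σ, Sat A e σ ↔ q (e, σ) = true :=
    ⟨fun z => cd (Sat A z.1 z.2), by simp only [Sat, w2]; fun_prop, fun _ _ => cd_true.symm⟩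
  have := ci_self K
  refine RI.choice (R := fun z : ℕ × S => Rel A z.1 z.2) (by simp only [Rel, p2, q2, gs]; fun_prop) fun z => ?_
  suffices ∃ τ, ¬ Sat A z.1 z.2 ∧ E z.1 z.2 τ ∧ Sat A z.1 τ ∨ (Sat A z.1 z.2 ∨ ¬ Split z.1 z.2) ∧ τ = z.2 by
    obtain ⟨τ, h⟩ := this
    obtain ⟨t, t1, t2⟩ := ((gs_ev τ.length).and (eventually_ge_atTop τ.length)).exists
    obtain ⟨r, rfl⟩ := Nat.exists_eq_add_of_le t2
    exact ⟨_, τ, h, r, rfl, t1⟩
  by_cases c : Sat A z.1 z.2 ∨ ¬ Split z.1 z.2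
  · exact ⟨_, .inr ⟨c, rfl⟩⟩
  · obtain ⟨x, τ, τ', a1, a2, a3, a4⟩ := not_not.1 (not_or.1 c).2
    cases e : A x
    · exact ⟨τ, .inl ⟨(not_or.1 c).1, a1, x, a3.1, e ▸ a3⟩⟩
    · exact ⟨τ', .inl ⟨(not_or.1 c).1, a2, x, a4.1, e ▸ a4⟩⟩

variable {A}

theorem Sat_mono {e : ℕ} {σ τ : S} (h : σ <+: τ) (k : Sat A e σ) : Sat A e τ :=
  let ⟨x, k1, k2⟩ := k; ⟨x, k1.trans_le h.length_le, Wd_mono h k2⟩

theorem Rel.ex {e : ℕ} {σ ρ : S} (h : Rel A e σ ρ) : σ <+: ρ ∧ σ.length < ρ.length ∧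
    (∃ t, σ.length ≤ t ∧ t < ρ.length ∧ fn ρ t = true ∧ gs t σ.length = pre K σ.length) ∧
    (¬ Sat A e ρ → ¬ Split e σ) ∧ V (fun t j => ¬ Tr t j) (fn ρ) ρ.length ≤ V (fun t j => ¬ Tr t j) (fn σ) σ.length +
      if ¬ Sat A e σ ∧ Sat A e ρ then (1 / 2) ^ e else 0 := by
  obtain ⟨τ, h1, r, h2, h3⟩ := h
  have a1 : σ <+: τ := h1.elim (fun k => k.2.1.1) fun k => k.2 ▸ List.prefix_rfl
  have a2 : τ <+: ρ := h2 ▸ (List.prefix_append _ _).trans (List.prefix_append _ _)
  have a3 : ρ.length = τ.length + r + 1 := by simp [h2, add_assoc]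
  have a4 := a1.length_le
  have a5 : ∀ {n}, n ≤ τ.length → gs (τ.length + r) n = pre K n := fun h => by
    rw [← pre_take K h, ← h3, gs, gs, pre_take _ h]
  have a6 : ∀ i, τ.length ≤ i → i < τ.length + r → fn ρ i = false := fun i h h' => by
    rw [h2, fn, List.getD_append _ _ _ _ (by simpa using h'), List.getD_append_right _ _ _ _ h]
    simp only [List.getD_eq_getElem?_getD, List.getElem?_replicate]
    split_ifs <;> rfl
  have a7 : V (fun t j => ¬ Tr t j) (fn ρ) ρ.length = V (fun t j => ¬ Tr t j) (fn τ) τ.length := by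
    rw [V_congr fun i => fn_le a2]
    refine (sum_subset (range_mono a2.length_le) fun t t1 t2 => sum_eq_zero fun j _ => if_neg fun k => ?_).symm
    simp only [mem_range, not_lt] at t1 t2
    by_cases c : t < τ.length + r
    · simpa [a6 t t2 c] using k.1.1.1
    · obtain rfl : t = τ.length + r := by omega
      refine k.2 (a5 ((nn_le j).trans (k.1.1.2.1.le.trans ?_)))
      refine (card_le_card fun i hi => ?_).trans_eq (card_range _)
      obtain ⟨b1, b2⟩ := mem_filter.1 hi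
      exact mem_range.2 (not_le.1 fun b => by simp [a6 i b (mem_range.1 b1)] at b2)
  refine ⟨a1.trans a2, by omega, ⟨τ.length + r, by omega, by omega, ?_, a5 a4⟩, fun k => ?_, ?_⟩
  · rw [h2, fn, List.getD_append_right _ _ _ _ (by simp)]
    simp
  · exact h1.elim (fun c => (k (Sat_mono a2 c.2.2)).elim) fun c =>
      c.1.resolve_left fun c => k (Sat_mono (a1.trans a2) c)
  · rw [a7]
    rcases h1 with ⟨c1, c2, c3⟩ | ⟨-, rfl⟩
    · rw [if_pos ⟨c1, Sat_mono a2 c3⟩]
      have b1 := (E_iff.1 c2).2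
      rw [V_split Tr, V_split Tr] at b1
      have b2 : V Tr (fn σ) σ.length ≤ V Tr (fn τ) τ.length := (V_congr fun i => fn_le a1).trans_le (V_mono a4)
      linarith
    · exact le_add_of_nonneg_right (by split_ifs <;> positivity)

theorem exB (hA : CI K A) (nc : ¬ Computable A) : ∃ B : ℕ → Bool, CI K B ∧ ¬ CI B A ∧
    (∀ s, V (fun _ _ => True) B s ≤ 6) ∧
      ∀ n, ∃ t, B t = true ∧ n ≤ ((range t).filter (B · = true)).card ∧ gs t n = pre K n := by
  obtain ⟨st, s1, s2⟩ := step A hA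
  obtain ⟨σ, h0, h1, h2⟩ : ∃ σ : ℕ → S, CI K σ ∧ σ 0 = [] ∧ ∀ s, Rel A s.unpair.1 (σ s) (σ (s + 1)) :=
    ⟨fun s => Nat.rec [] (fun s σ => st (s.unpair.1, σ)) s, by fun_prop, rfl, fun s => s2 (_, _)⟩
  have l1 : ∀ s, s ≤ (σ s).length := fun s => Nat.rec (Nat.zero_le _) (fun s ih => ih.trans_lt (h2 s).ex.2.1) s
  have l2 := lim_pre (fun s => (h2 s).ex.1) l1
  have l3 : ∀ s, ∀ i < (σ s).length, fn (σ s) i = lim σ i := fun s i h => by rw [← fn_pre (lim σ) h, l2]
  have l4 : ∀ s, V (fun t j => ¬ Tr t j) (fn (σ s)) (σ s).length ≤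
      ∑ e ∈ range s, if Sat A e (σ s) then (1 / 2 : ℝ) ^ e else 0 := fun s => by
    induction s with
    | zero => simp [h1, V]
    | succ s ih =>
      refine (h2 s).ex.2.2.2.2.trans ?_
      have := Nat.unpair_left_le s
      calc _ ≤ ∑ e ∈ range (s + 1), ((if Sat A e (σ s) ∧ e < s then (1 / 2 : ℝ) ^ e else 0) + if e = s.unpair.1 then
            (if ¬ Sat A e (σ s) ∧ Sat A e (σ (s + 1)) then (1 / 2 : ℝ) ^ e else 0) else 0) := by
            rw [sum_add_distrib, sum_ite_eq', if_pos (mem_range.2 (by omega : s.unpair.1 < s + 1)), sum_range_succ,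
              if_neg (c := Sat A s (σ s) ∧ s < s) (fun k => k.2.false), add_zero]
            exact add_le_add_left (ih.trans_eq (sum_congr rfl fun e he => by simp [mem_range.1 he])) _
        _ ≤ _ := sum_le_sum fun e _ => by
            by_cases c : Sat A e (σ s)
            · simp only [c, Sat_mono (h2 s).ex.1 c, not_true, false_and, if_false, ite_self, add_zero, if_true]
              split_ifs; exacts [le_rfl, by positivity]
            · simp only [c, false_and, if_false, zero_add, not_false_iff, true_and]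
              split_ifs <;> first | exact le_rfl | positivity
  have l5 : ∀ s, V (fun _ _ => True) (lim σ) s ≤ 6 := fun s => by
    refine (V_mono (l1 s)).trans ?_
    have : ∑ e ∈ range s, (if Sat A e (σ s) then (1 / 2 : ℝ) ^ e else 0) ≤ 2 :=
      (sum_le_sum fun e _ => by split_ifs; exacts [le_rfl, by positivity]).trans (sum_geometric_two_le s)
    rw [← V_congr (l3 s), V_split Tr]
    linarith [l4 s, V_Tr (X := fn (σ s)) (s := (σ s).length)]
  refine ⟨lim σ, by unfold MP_81a968_lc.lim; fun_prop, fun h => ?_, l5, fun n => ?_⟩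
  · have h3 := h.ri
    rw [RI] at h3
    obtain ⟨W, w1, w2, w3⟩ := h3
    obtain ⟨c, hc⟩ := re_code (r_pw w1).re
    have w4 : ∀ x b m, Wd (encode c) x b (pre (lim σ) m) → A x = b := fun x b m ⟨_, k, k1, k2⟩ => by
      have := N_sound k2
      rw [ofNat_encode, ← hc, pre_take _ (pre_len (lim σ) m ▸ k1.le)] at this
      exact w2 (x, b) k this
    have w5 : ∀ x, ∀ᶠ m in atTop, Wd (encode c) x (A x) (pre (lim σ) m) := fun x => by
      obtain ⟨k, hk⟩ := (w3 (x, A x) rfl).exists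
      have := N_ev (e := encode c) (by rw [ofNat_encode]; exact (hc _).1 hk)
      exact (this.and ((eventually_gt_atTop x).and (eventually_gt_atTop k))).mono fun m ⟨a1, a2, a3⟩ => by
        unfold Wd
        rw [pre_len]
        exact ⟨a2, k, a3, by rwa [pre_take _ a3.le]⟩
    have b1 : BddAbove (Set.range (V (fun _ _ => True) (lim σ))) := ⟨6, by rintro _ ⟨s, rfl⟩; exact l5 s⟩
    obtain ⟨s, hs⟩ := exists_lt_of_lt_ciSup (sub_lt_self (⨆ s, V (fun _ _ => True) (lim σ) s)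
      (show (0 : ℝ) < (1 / 2) ^ encode c by positivity))
    have b2 := (h2 (Nat.pair (encode c) s)).ex.2.2.2.1
    rw [Nat.unpair_pair] at b2
    replace b2 := b2 fun ⟨x, _, k⟩ => Bool.not_ne_self _ (w4 x _ _ (l2 _ ▸ k)).symm
    generalize e : σ (Nat.pair (encode c) s) = ρ at b2
    have b3 : pre (lim σ) ρ.length = ρ := e ▸ l2 _
    have b4 : s ≤ ρ.length := (Nat.right_le_pair _ _).trans (e ▸ l1 _)
    have b5 : ∀ x, ∃ τ, E (encode c) ρ τ ∧ Wd (encode c) x (A x) τ := fun x => by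
      obtain ⟨m, a1, a2⟩ := ((w5 x).and (eventually_ge_atTop ρ.length)).exists
      refine ⟨_, E_iff.2 ⟨by have := pre_pre (lim σ) a2; rwa [b3] at this, ?_⟩, a1⟩
      have := le_ciSup b1 m
      have := V_mono (P := fun _ _ => True) (X := lim σ) b4
      rw [V_pre, ← b3, V_pre]
      linarith
    have := E_re
    refine nc (ci_comput (CI.mk (R := fun x b => ∃ τ, E (encode c) ρ τ ∧ Wd (encode c) x b τ)
      (i_re (by unfold Wd; fun_prop)) fun x b => ⟨fun ⟨τ, a1, a2⟩ => ?_, fun a => a ▸ b5 x⟩))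
    obtain ⟨τ', a3, a4⟩ := b5 x
    by_contra a
    cases b <;> cases e' : A x <;> simp only [e'] at a a4
    exacts [a trivial, b2 ⟨x, τ', τ, a3, a1, a4, a2⟩, b2 ⟨x, τ, τ', a1, a3, a2, a4⟩, a trivial]
  · have c1 : ∀ s, s ≤ ((range (σ s).length).filter (lim σ · = true)).card := fun s => by
      induction s with
      | zero => exact Nat.zero_le _
      | succ s ih =>
        obtain ⟨t, t1, t2, t3, -⟩ := (h2 s).ex.2.2.1
        refine ih.trans_lt (card_lt_card ⟨filter_subset_filter _ (range_mono (by omega)), fun k => ?_⟩)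
        have := k (mem_filter.2 ⟨mem_range.2 t2, l3 _ _ t2 ▸ t3⟩)
        simp at this
        omega
    obtain ⟨t, t1, t2, t3, t4⟩ := (h2 n).ex.2.2.1
    refine ⟨t, l3 _ _ t2 ▸ t3, (c1 n).trans (card_le_card (filter_subset_filter _ (range_mono t1))), ?_⟩
    rw [← pre_take K (l1 n), ← t4, gs, gs, pre_take _ (l1 n)]

end Pool.Agent.H.MP_29fd35_lc
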