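import Pool.Agent.H.MP_29fd35_lc.A

set_option autoImplicit false

/-! The halting set is trivial relative to the constructed oracle. -/

namespace Pool.Agent.H.MP_29fd35_lc

open Pool.Agent.Lib.helper21.PR Pool.Agent.H.MP_fa5791_lc Pool.Agent.H.MP_fa2eca_lc Filter Encodable Denumerable
open Nat.Partrec Nat.Partrec.Code Pool.Agent.Lib.helper21 Pool.Agent.Lib.helper21.ML Finset
open Pool.Agent.H.MP_81a968_lc (S)
open Classical

attribute [local irreducible] Primrec Computable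

variable {B : ℕ → Bool}

def Hp (B : ℕ → Bool) (ρ : S) (m : ℕ) : Prop :=
  encode ρ + 2 ≤ m ∨ ∃ t j, Rq B t j ∧ gs t (nn j) = ρ ∧ ee j + kk j + 4 ≤ m

noncomputable def h (B : ℕ → Bool) (ρ : S) : ℕ := sInf {m | Hp B ρ m}

theorem h_mem (ρ : S) : Hp B ρ (h B ρ) := Nat.sInf_mem (s := {m | Hp B ρ m}) ⟨_, .inl le_rfl⟩

theorem h_le {ρ : S} {m : ℕ} : h B ρ ≤ m ↔ Hp B ρ m :=
  ⟨fun k => (h_mem ρ).imp (fun a => a.trans k) fun ⟨t, j, a, b, c⟩ => ⟨t, j, a, b, c.trans k⟩, fun k => Nat.sInf_le (s := {m | Hp B ρ m}) k⟩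

theorem h_ri : RI B fun z : S × ℕ => h B z.1 ≤ z.2 := by
  have := ci_self B
  obtain ⟨R, r1, r2⟩ : ∃ R : ℕ × ℕ → Bool, CI B R ∧ ∀ t j, Rq B t j ↔ R (t, j) = true :=
    ⟨_, Rq_ci (X := fun _ => B) (t := Prod.fst) (j := Prod.snd) (by fun_prop) (by fun_prop) (by fun_prop),
      fun _ _ => cd_true.symm⟩
  simp only [h_le, Hp, r2, gs, ee, nn, kk]
  exact RI.un (by fun_prop)

theorem V_ge {P : ℕ → ℕ → Prop} {t j T : ℕ} (hj : j < t) (ht : t < T) (h1 : Nw B t j) (h2 : P t j) :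
    w j ≤ V P B T :=
  le_trans (le_trans (if_pos ⟨h1, h2⟩).ge (single_le_sum (f := fun j => if Nw B t j ∧ P t j then w j else 0)
    (fun j _ => by split_ifs; exacts [w_pos j, le_rfl]) (mem_range.2 hj)))
      (single_le_sum (f := fun t => ∑ j ∈ range t, if Nw B t j ∧ P t j then w j else 0)
        (fun _ _ => sum_nonneg fun j _ => by split_ifs; exacts [w_pos j, le_rfl]) (mem_range.2 ht))

theorem h_sum (hV : ∀ s, V (fun _ _ => True) B s ≤ 6) (s : Finset S) : ∑ ρ ∈ s, (1 / 2 : ℝ) ^ h B ρ ≤ 1 := by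
  have h1 : ∀ ρ, ∀ᶠ T in atTop, (1 / 2 : ℝ) ^ h B ρ ≤ (1 / 2) ^ (encode ρ + 2) +
      V (fun t j => gs t (nn j) = ρ) B T / 16 := fun ρ => by
    have h0 : ∀ T, 0 ≤ V (fun t j => gs t (nn j) = ρ) B T := fun T => le_of_eq_of_le (by simp [V]) (V_mono T.zero_le)
    rcases h_mem (B := B) ρ with k | ⟨t, j, k1, k2, k3⟩
    · exact .of_forall fun T => le_add_of_le_of_nonneg (pow_le_pow_of_le_one (by norm_num) (by norm_num) k)
        (div_nonneg (h0 T) (by norm_num))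
    · have e : ∃ t, Rq B t j ∧ gs t (nn j) = ρ := ⟨t, k1, k2⟩
      refine (eventually_gt_atTop (Nat.find e)).mono fun T hT => le_add_of_nonneg_of_le (by positivity) ?_
      have a1 : j < Nat.find e := (Nat.find_spec e).1.2.1.trans_le ((card_filter_le _ _).trans_eq (card_range _))
      have a2 : w j ≤ V (fun t j => gs t (nn j) = ρ) B T := V_ge a1 hT ⟨(Nat.find_spec e).1,
        fun t' a b c => Nat.find_min e a ⟨b, c.trans (Nat.find_spec e).2⟩⟩ (Nat.find_spec e).2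
      have a3 := pow_le_pow_of_le_one (by norm_num : (0 : ℝ) ≤ 1 / 2) (by norm_num) k3
      rw [pow_add] at a3
      unfold w at a2
      linarith
  obtain ⟨T, hT⟩ := ((eventually_all_finset s).2 fun ρ _ => h1 ρ).exists
  have h2 : ∑ ρ ∈ s, V (fun t j => gs t (nn j) = ρ) B T ≤ V (fun _ _ => True) B T := by
    unfold V
    rw [sum_comm]
    refine sum_le_sum fun t _ => ?_
    rw [sum_comm]
    refine sum_le_sum fun j _ => ?_
    by_cases c : Nw B t j
    · simp only [c, true_and, sum_ite_eq, if_true]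
      split_ifs; exacts [le_rfl, w_pos j]
    · simp [c]
  have h3 : ∑ ρ ∈ s, (1 / 2 : ℝ) ^ encode ρ ≤ 2 := by
    obtain ⟨b, hb⟩ := (s.image encode).bddAbove
    rw [← sum_image (f := fun n => (1 / 2 : ℝ) ^ n) fun _ _ _ _ k => encode_injective k]
    exact (sum_le_sum_of_subset_of_nonneg (fun n hn => mem_range.2 (Nat.lt_succ_of_le (hb hn)))
      fun _ _ _ => by positivity).trans (sum_geometric_two_le _)
  refine (sum_le_sum hT).trans ?_
  simp only [sum_add_distrib, ← sum_div, pow_add, ← sum_mul]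
  linarith [hV T]

theorem h_K (hB : ∀ n, ∃ t, B t = true ∧ n ≤ ((range t).filter (B · = true)).card ∧ gs t n = pre K n)
    {f : ℕ → ℕ} (h1 : RI B fun z : ℕ × ℕ => f z.1 ≤ z.2) (h2 : ∀ s : Finset ℕ, ∑ n ∈ s, (1 / 2 : ℝ) ^ f n ≤ 1) :
    ∃ c, ∀ n, h B (pre K n) ≤ f n + c := by
  rw [RI] at h1
  obtain ⟨W, w1, w2, w3⟩ := h1
  obtain ⟨c, hc⟩ := re_code (r_pw w1).re
  refine ⟨encode c + 4, fun n => h_le.2 (.inr ?_)⟩
  obtain ⟨j, j1, j2, j3⟩ : ∃ j, ee j = encode c ∧ nn j = n ∧ kk j = f n :=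
    ⟨Nat.pair (encode c) (Nat.pair n (f n)), by simp [ee, nn, kk]⟩
  obtain ⟨m, hm⟩ := (w3 (n, f n) le_rfl).exists
  obtain ⟨u, u1, u2, u3⟩ := ((N_ev (e := encode c) (by rw [ofNat_encode]; exact (hc _).1 hm)).and
    ((eventually_gt_atTop j).and (eventually_gt_atTop m))).exists
  obtain ⟨t, t1, t2, t3⟩ := hB u
  have t4 : u ≤ t := t2.trans ((card_filter_le _ _).trans_eq (card_range _))
  have t5 : n ≤ u := j2 ▸ (nn_le j).trans u2.le
  refine ⟨t, j, ⟨t1, u2.trans_le t2, u, by omega, u2, ⟨m, u3, by rwa [j1, j2, j3]⟩, cap_iff.2 ?_⟩,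
    by rw [j2, ← pre_take K t5, ← t3, gs, gs, pre_take _ t5], by omega⟩
  calc _ = ∑ z ∈ ((range u).filter fun i => ee i = ee j ∧ En B u i).image fun i => (nn i, kk i), (1 / 2 : ℝ) ^ z.2 := by
        rw [sum_image, sum_filter]
        intro a ha b hb e
        have e1 := (mem_filter.1 ha).2.1.trans (mem_filter.1 hb).2.1.symm
        simp only [Prod.mk.injEq, ee, nn, kk] at e e1
        rw [← Nat.pair_unpair a, ← Nat.pair_unpair a.unpair.2, e1, e.1, e.2, Nat.pair_unpair, Nat.pair_unpair]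
    _ ≤ ∑ z ∈ (range u ×ˢ range u).filter fun z => f z.1 ≤ z.2, (1 / 2 : ℝ) ^ z.2 := by
        refine sum_le_sum_of_subset_of_nonneg (fun z hz => ?_) fun _ _ _ => by positivity
        obtain ⟨i, hi, rfl⟩ := mem_image.1 hz
        obtain ⟨a1, a2, m, -, a3⟩ := mem_filter.1 hi
        have a4 := N_sound a3
        rw [a2, j1, ofNat_encode, ← hc] at a4
        have := ek_le i
        have := nn_le i
        have := mem_range.1 a1
        exact mem_filter.2 ⟨mem_product.2 ⟨mem_range.2 (by omega), mem_range.2 (by omega)⟩, w2 (_, _) m a4⟩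
    _ ≤ ∑ n ∈ range u, 2 * (1 / 2 : ℝ) ^ f n := by
        rw [sum_filter, sum_product]
        refine sum_le_sum fun n _ => le_trans (le_of_eq ?_) (geo (f n) u)
        rw [← sum_filter]
        exact sum_congr (by ext; simp [and_comm]) fun _ _ => rfl
    _ ≤ 2 := by rw [← mul_sum]; linarith [h2 (range u)]

end Pool.Agent.H.MP_29fd35_lc
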